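import Pool.Agent.Helper89.HY.St3
import Pool.Agent.Helper28.SP.M_NPW
import Pool.Agent.Helper56.SW.M_Sqrt

/-!
# Project HY3, module TRN: translates
-/

set_option autoImplicit false

noncomputable section

namespace Pool.Agent.Helper71.HY

open Finset Matrix
open Pool.Agent.Helper56.SW (N τ Γ I bx Rel mem_bx mem_I stSqrt)
open Pool.Agent.Helper28.SP (SG SZ Uu Ll zP red)
open Pool.Agent.Helper28.SP.NPW
open Pool.Agent.Helper89.HY

/-- the group identity -/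
private theorem grp {G : Type} [Group G] (U L : ℤ → G) (hU : ∀ x y, U x * U y = U (x + y))
    (hL : ∀ x y, L x * L y = L (x + y)) (hU0 : U 0 = 1) (hL0 : L 0 = 1)
    (e1 e1' e2 e2' e3 e3' k1 k1' k2 k2' k3 k3' t1 t2 t3 : ℤ) (σ : G)
    (hσ : σ = U (e1' - e1) * L (k1 - k1' + t1) * (U (e2' - e2) * L (k2 - k2' + t2)) *
      (U (e3' - e3) * L (k3 - k3' + t3))) (hc : ∀ x, σ * x = x * σ) :
    (U e1 * L k3')⁻¹ * 1 * (U e1' * L k1) * L t1 * (U e2 * L k1')⁻¹ * 1 * (U e2' * L k2) * L t2 *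
      (U e3 * L k2')⁻¹ * 1 * (U e3' * L k3) * (L t3 * σ⁻¹) = 1 := by
  have iU : ∀ x, (U x)⁻¹ = U (-x) := fun x =>
    inv_eq_of_mul_eq_one_right (by rw [hU, add_neg_cancel, hU0])
  have iL : ∀ x, (L x)⁻¹ = L (-x) := fun x =>
    inv_eq_of_mul_eq_one_right (by rw [hL, add_neg_cancel, hL0])
  have dU : ∀ x y, U (y - x) = (U x)⁻¹ * U y := by
    intro x y
    rw [iU, hU]
    congr 1
    ring
  have dL : ∀ x y z, L (x - y + z) = L x * L z * (L y)⁻¹ := by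
    intro x y z
    rw [iL, hL, hL]
    congr 1
    ring
  obtain ⟨Y, hY⟩ : ∃ Y, Y = (U e1)⁻¹ * U e1' * L k1 * L t1 * (L k1')⁻¹ * (U e2)⁻¹ * U e2' * L k2 *
    L t2 * (L k2')⁻¹ * (U e3)⁻¹ * U e3' * L k3 * L t3 := ⟨_, rfl⟩
  have h1 : σ = Y * (L k3')⁻¹ := by
    rw [hσ, hY, dU, dU, dU, dL, dL, dL]
    simp only [mul_assoc]
  have h2 : (U e1 * L k3')⁻¹ * 1 * (U e1' * L k1) * L t1 * (U e2 * L k1')⁻¹ * 1 * (U e2' * L k2) *
      L t2 * (U e3 * L k2')⁻¹ * 1 * (U e3' * L k3) * (L t3 * σ⁻¹) = (L k3')⁻¹ * Y * σ⁻¹ := by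
    rw [hY]
    simp only [_root_.mul_inv_rev, mul_one, mul_assoc]
  have h3 : Y = L k3' * σ := by
    rw [← hc, h1, inv_mul_cancel_right]
  rw [h2, h3, inv_mul_cancel_left, mul_inv_cancel]

/-- the scalar as a group element -/
private def sg (c γ : ℕ) : SG c := by
  classical
  exact if h : ∃ x : SG c, (x : Matrix (Fin 2) (Fin 2) (ZMod c)) =
    (((γ : ℤ)) : ZMod c) • (1 : Matrix (Fin 2) (Fin 2) (ZMod c)) then h.choose else 1

private theorem sg_spec {c γ : ℕ} {a b : ℤ} {l : List (ℤ × ℤ)} (h : Rel c a b (γ : ℤ) l) :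
    red c (EZ a b l) = sg c γ := by
  have h1 := (rel_iff c a b γ l).1 h
  have hex : ∃ x : SG c, (x : Matrix (Fin 2) (Fin 2) (ZMod c)) =
    (((γ : ℤ)) : ZMod c) • (1 : Matrix (Fin 2) (Fin 2) (ZMod c)) := ⟨_, h1⟩
  unfold sg
  rw [dif_pos hex]
  apply Subtype.ext
  rw [h1, hex.choose_spec]

/-- the translations -/
private def gg (c : ℕ) (b : ℤ) (t : ℤ × ℤ × ℤ) (γ : ℕ) : Fin 6 → SG c :=
  ![1, red c (Ll (b * t.1)), 1, red c (Ll (b * t.2.1)), 1, red c (Ll (b * t.2.2)) * (sg c γ)⁻¹]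

/-- the list of a tuple -/
private def Ph (t : ℤ × ℤ × ℤ) (i : Fin 6 → ℕ × ℕ) : List (ℤ × ℤ) :=
  [(((i 5).1 : ℤ) - (i 4).1, ((i 5).2 : ℤ) - (i 0).2 + t.2.2),
   (((i 3).1 : ℤ) - (i 2).1, ((i 3).2 : ℤ) - (i 4).2 + t.2.1),
   (((i 1).1 : ℤ) - (i 0).1, ((i 1).2 : ℤ) - (i 2).2 + t.1)]

private theorem FF_cond {c γ : ℕ} {a b : ℤ} (t : ℤ × ℤ × ℤ) (i : Fin 6 → ℕ × ℕ)
    (h : Rel c a b (γ : ℤ) (Ph t i)) :
    ((red c (zP a b (i 0)) : SG c))⁻¹ * gg c b t γ 0 * red c (zP a b (i 1)) * gg c b t γ 1 *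
      (red c (zP a b (i 2)))⁻¹ * gg c b t γ 2 * red c (zP a b (i 3)) * gg c b t γ 3 *
      (red c (zP a b (i 4)))⁻¹ * gg c b t γ 4 * red c (zP a b (i 5)) * gg c b t γ 5 = 1 := by
  have hz : ∀ j : ℕ × ℕ, (red c (zP a b j) : SG c) =
      red c (Uu (a * (j.1 : ℤ))) * red c (Ll (b * (j.2 : ℤ))) := by
    intro j
    rw [← map_mul]
    rfl
  have hs := sg_spec h
  have hcen := central c (red c (EZ a b (Ph t i))) _ ((rel_iff c a b γ _).1 h)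
  have hE : red c (EZ a b (Ph t i)) =
      red c (Uu (a * (((i 1).1 : ℤ) - (i 0).1))) *
        red c (Ll (b * (((i 1).2 : ℤ) - (i 2).2 + t.1))) *
      (red c (Uu (a * (((i 3).1 : ℤ) - (i 2).1))) *
        red c (Ll (b * (((i 3).2 : ℤ) - (i 4).2 + t.2.1)))) *
      (red c (Uu (a * (((i 5).1 : ℤ) - (i 4).1))) *
        red c (Ll (b * (((i 5).2 : ℤ) - (i 0).2 + t.2.2)))) := by
    unfold Ph
    simp only [EZ, one_mul, map_mul]
  rw [hz, hz, hz, hz, hz, hz]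
  have := grp (G := SG c) (fun x => red c (Uu (a * x))) (fun x => red c (Ll (b * x)))
    (fun x y => by
      show red c (Uu (a * x)) * red c (Uu (a * y)) = red c (Uu (a * (x + y)))
      rw [← map_mul, Uu_mul, mul_add])
    (fun x y => by
      show red c (Ll (b * x)) * red c (Ll (b * y)) = red c (Ll (b * (x + y)))
      rw [← map_mul, Ll_mul, mul_add])
    (by
      show red c (Uu (a * 0)) = 1
      rw [mul_zero, Uu_zero, map_one])
    (by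
      show red c (Ll (b * 0)) = 1
      rw [mul_zero, Ll_zero, map_one])
    ((i 0).1 : ℤ) (i 1).1 (i 2).1 (i 3).1 (i 4).1 (i 5).1 (i 1).2 (i 2).2 (i 3).2 (i 4).2 (i 5).2
    (i 0).2 t.1 t.2.1 t.2.2 (red c (EZ a b (Ph t i))) hE hcen
  rw [hs] at this
  exact this

private theorem fibre_ge (A B' : ℕ) (t : ℤ × ℤ × ℤ) (h1 x1 h2 x2 h3 x3 : ℤ)
    (a1 : h1 ∈ I A) (a2 : h2 ∈ I A) (a3 : h3 ∈ I A) (b1 : x1 - t.1 ∈ I B')
    (b2 : x2 - t.2.1 ∈ I B') (b3 : x3 - t.2.2 ∈ I B') :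
    (((A : ℝ) + 1) * ((B' : ℝ) + 1)) ^ 3 ≤
      (((Fintype.piFinset fun _ : Fin 6 => range (2 * A + 1) ×ˢ range (2 * B' + 1)).filter
        fun i => Ph t i = [(h3, x3), (h2, x2), (h1, x1)]).card : ℝ) := by
  obtain ⟨P, hP⟩ : ∃ P : ℕ → ℤ → Finset (ℕ × ℕ), P = fun A x =>
    (range (2 * A + 1) ×ˢ range (2 * A + 1)).filter (fun p : ℕ × ℕ => (p.2 : ℤ) - p.1 = x) :=
    ⟨_, rfl⟩
  have hPm : ∀ A x p, p ∈ P A x ↔ (p.1 < 2 * A + 1 ∧ p.2 < 2 * A + 1) ∧ (p.2 : ℤ) - p.1 = x := by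
    intro A x p
    rw [hP]
    simp only [mem_filter, mem_product, mem_range]
  have hPc : ∀ A x, x ∈ I A → (A : ℝ) + 1 ≤ ((P A x).card : ℝ) := by
    intro A x hx
    rw [hP]
    exact le_r A x hx
  obtain ⟨f, hf⟩ : ∃ f : ((ℕ × ℕ) × ((ℕ × ℕ) × (ℕ × ℕ))) × ((ℕ × ℕ) × ((ℕ × ℕ) × (ℕ × ℕ))) →
      (Fin 6 → ℕ × ℕ), f = fun x => ![(x.1.1.1, x.2.2.2.1), (x.1.1.2, x.2.1.2),
        (x.1.2.1.1, x.2.1.1), (x.1.2.1.2, x.2.2.1.2), (x.1.2.2.1, x.2.2.1.1),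
        (x.1.2.2.2, x.2.2.2.2)] := ⟨_, rfl⟩
  have hcard : (((P A h1 ×ˢ (P A h2 ×ˢ P A h3)) ×ˢ
      (P B' (x1 - t.1) ×ˢ (P B' (x2 - t.2.1) ×ˢ P B' (x3 - t.2.2)))).card) ≤
      ((Fintype.piFinset fun _ : Fin 6 => range (2 * A + 1) ×ˢ range (2 * B' + 1)).filter
        fun i => Ph t i = [(h3, x3), (h2, x2), (h1, x1)]).card := by
    refine card_le_card_of_injOn f ?_ ?_
    · rintro ⟨⟨p1, p2, p3⟩, q1, q2, q3⟩ hx
      rw [mem_coe] at hx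
      simp only [mem_product, hPm] at hx
      obtain ⟨⟨u1, u2, u3⟩, v1, v2, v3⟩ := hx
      rw [mem_coe, mem_filter, Fintype.mem_piFinset]
      refine ⟨?_, ?_⟩
      · intro j
        rw [hf, mem_product, mem_range, mem_range]
        fin_cases j
        · exact ⟨u1.1.1, v3.1.1⟩
        · exact ⟨u1.1.2, v1.1.2⟩
        · exact ⟨u2.1.1, v1.1.1⟩
        · exact ⟨u2.1.2, v2.1.2⟩
        · exact ⟨u3.1.1, v2.1.1⟩
        · exact ⟨u3.1.2, v3.1.2⟩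
      · rw [hf]
        show [((p3.2 : ℤ) - p3.1, (q3.2 : ℤ) - q3.1 + t.2.2),
          ((p2.2 : ℤ) - p2.1, (q2.2 : ℤ) - q2.1 + t.2.1),
          ((p1.2 : ℤ) - p1.1, (q1.2 : ℤ) - q1.1 + t.1)] = _
        rw [u1.2, u2.2, u3.2, v1.2, v2.2, v3.2, sub_add_cancel, sub_add_cancel, sub_add_cancel]
    · rintro ⟨⟨p1, p2, p3⟩, q1, q2, q3⟩ _ ⟨⟨p1', p2', p3'⟩, q1', q2', q3'⟩ _ hxy
      rw [hf] at hxy
      have g0 : (p1.1, q3.1) = (p1'.1, q3'.1) := congrFun hxy 0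
      have g1 : (p1.2, q1.2) = (p1'.2, q1'.2) := congrFun hxy 1
      have g2 : (p2.1, q1.1) = (p2'.1, q1'.1) := congrFun hxy 2
      have g3 : (p2.2, q2.2) = (p2'.2, q2'.2) := congrFun hxy 3
      have g4 : (p3.1, q2.1) = (p3'.1, q2'.1) := congrFun hxy 4
      have g5 : (p3.2, q3.2) = (p3'.2, q3'.2) := congrFun hxy 5
      rw [Prod.mk.injEq] at g0 g1 g2 g3 g4 g5
      have r1 : p1 = p1' := Prod.ext g0.1 g1.1
      have r2 : p2 = p2' := Prod.ext g2.1 g3.1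
      have r3 : p3 = p3' := Prod.ext g4.1 g5.1
      have r4 : q1 = q1' := Prod.ext g2.2 g1.2
      have r5 : q2 = q2' := Prod.ext g4.2 g3.2
      have r6 : q3 = q3' := Prod.ext g0.2 g5.2
      rw [r1, r2, r3, r4, r5, r6]
  have hcard' := (Nat.cast_le (α := ℝ)).2 hcard
  refine le_trans ?_ hcard'
  rw [card_product, card_product, card_product, card_product, card_product]
  push_cast
  have c1 := hPc A h1 a1
  have c2 := hPc A h2 a2
  have c3 := hPc A h3 a3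
  have d1 := hPc B' _ b1
  have d2 := hPc B' _ b2
  have d3 := hPc B' _ b3
  calc (((A : ℝ) + 1) * ((B' : ℝ) + 1)) ^ 3 = (((A : ℝ) + 1) * (((A : ℝ) + 1) * ((A : ℝ) + 1))) *
        (((B' : ℝ) + 1) * (((B' : ℝ) + 1) * ((B' : ℝ) + 1))) := by ring
    _ ≤ _ := by gcongr

/-- the covering -/
private theorem cover (B B' : ℕ) (h1 : 1 ≤ B') (h2 : B' ≤ B) : ∃ T : Finset ℤ,
    ((T.card : ℝ) ≤ 2 * (B : ℝ) / B') ∧ ∀ x : ℤ, x ∈ I B → ∃ t ∈ T, x - t ∈ I B' := by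
  classical
  refine ⟨(range (2 * B / (2 * B' + 1) + 1)).image
    (fun j : ℕ => -(B : ℤ) + B' + j * (2 * B' + 1)), ?_, ?_⟩
  · have c1 := card_image_le (s := range (2 * B / (2 * B' + 1) + 1))
      (f := fun j : ℕ => -(B : ℤ) + B' + j * (2 * B' + 1))
    rw [card_range] at c1
    have c2 : (((range (2 * B / (2 * B' + 1) + 1)).image
      (fun j : ℕ => -(B : ℤ) + B' + j * (2 * B' + 1))).card : ℝ) ≤
      ((2 * B / (2 * B' + 1) + 1 : ℕ) : ℝ) := by exact_mod_cast c1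
    refine c2.trans ?_
    have hB' : (0 : ℝ) < B' := by exact_mod_cast h1
    have hBB : (B' : ℝ) ≤ B := by exact_mod_cast h2
    rw [le_div_iff₀ hB']
    have c3 : ((2 * B / (2 * B' + 1) : ℕ) : ℝ) * (2 * (B' : ℝ) + 1) ≤ 2 * B := by
      have := Nat.div_mul_le_self (2 * B) (2 * B' + 1)
      exact_mod_cast this
    have c4 : (0 : ℝ) ≤ ((2 * B / (2 * B' + 1) : ℕ) : ℝ) := Nat.cast_nonneg _
    push_cast [Nat.cast_add, Nat.cast_one] at *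
    nlinarith
  · intro x hx
    rw [mem_I, abs_le] at hx
    obtain ⟨j, hj⟩ : ∃ j : ℕ, (j : ℤ) = (x + B) / (2 * B' + 1) := by
      refine ⟨((x + B) / (2 * B' + 1)).toNat, ?_⟩
      apply Int.toNat_of_nonneg
      apply Int.ediv_nonneg <;> omega
    have h3 := Int.emod_add_mul_ediv (x + B) (2 * B' + 1)
    have h4 := Int.emod_nonneg (x + B) (show (2 * (B' : ℤ) + 1) ≠ 0 by omega)
    have h5 := Int.emod_lt_of_pos (x + B) (show 0 < (2 * (B' : ℤ) + 1) by omega)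
    rw [← hj] at h3
    refine ⟨-(B : ℤ) + B' + j * (2 * B' + 1), ?_, ?_⟩
    · rw [mem_image]
      refine ⟨j, ?_, rfl⟩
      rw [mem_range, Nat.lt_succ_iff, Nat.le_div_iff_mul_le (by omega)]
      have : (j : ℤ) * (2 * B' + 1) ≤ 2 * B := by linarith
      exact_mod_cast this
    · rw [mem_I, abs_le]
      constructor <;> linarith

/-- Module TRN. -/
theorem hTRN : StTRN := by
  classical
  intro c a b A B B' X hc hA hB' hBB hX0 hX
  obtain ⟨T, hTc, hT⟩ := cover B B' hB' hBB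
  obtain ⟨Ls, hLs⟩ : ∃ Ls : ℕ → ℤ × ℤ × ℤ → Finset (List (ℤ × ℤ)), Ls =
    fun (γ : ℕ) (t : ℤ × ℤ × ℤ) => (bx (I A) (I B) 3).filter fun l => Rel c a b (γ : ℤ) l ∧ ∃ h1 x1 h2 x2 h3 x3 : ℤ,
      l = [(h3, x3), (h2, x2), (h1, x1)] ∧ x1 - t.1 ∈ I B' ∧ x2 - t.2.1 ∈ I B' ∧
        x3 - t.2.2 ∈ I B' := ⟨_, rfl⟩
  have hM : ∀ γ t, ((Ls γ t).card : ℝ) * (((A : ℝ) + 1) * ((B' : ℝ) + 1)) ^ 3 ≤ X := by
    intro γ t
    have h1 := hX (gg c b t γ)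
    have h2 : ((Ls γ t).card : ℝ) * (((A : ℝ) + 1) * ((B' : ℝ) + 1)) ^ 3 ≤
        ∑ l ∈ Ls γ t,
        (((Fintype.piFinset fun _ : Fin 6 => range (2 * A + 1) ×ˢ range (2 * B' + 1)).filter
          fun i => Ph t i = l).card : ℝ) := by
      rw [← nsmul_eq_mul, ← sum_const]
      refine sum_le_sum fun l hl => ?_
      rw [hLs] at hl
      simp only [mem_filter, mem_bx] at hl
      obtain ⟨⟨_, hm⟩, _, k1, x1, k2, x2, k3, x3, rfl, b1, b2, b3⟩ := hl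
      have m3 := hm (k3, x3) (by simp)
      have m2 := hm (k2, x2) (by simp)
      have m1 := hm (k1, x1) (by simp)
      exact fibre_ge A B' t k1 x1 k2 x2 k3 x3 m1.1 m2.1 m3.1 b1 b2 b3
    have h3 : ∑ l ∈ Ls γ t,
        (((Fintype.piFinset fun _ : Fin 6 => range (2 * A + 1) ×ˢ range (2 * B' + 1)).filter
          fun i => Ph t i = l).card) =
        ((Fintype.piFinset fun _ : Fin 6 => range (2 * A + 1) ×ˢ range (2 * B' + 1)).filter
          fun i => Ph t i ∈ Ls γ t).card := sum_card_fiberwise_eq_card_filter _ _ _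
    have h4 : ((Fintype.piFinset fun _ : Fin 6 => range (2 * A + 1) ×ˢ range (2 * B' + 1)).filter
          fun i => Ph t i ∈ Ls γ t).card ≤
        FF (range (2 * A + 1) ×ˢ range (2 * B' + 1))
          (fun i : ℕ × ℕ => (red c (zP a b i) : SG c)) (gg c b t γ) := by
      unfold FF
      apply card_le_card
      intro i hi
      simp only [mem_filter] at hi ⊢
      refine ⟨hi.1, ?_⟩
      have h5 := hi.2
      rw [hLs] at h5
      simp only [mem_filter] at h5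
      exact FF_cond t i h5.2.1
    have h5 : (∑ l ∈ Ls γ t,
        (((Fintype.piFinset fun _ : Fin 6 => range (2 * A + 1) ×ˢ range (2 * B' + 1)).filter
          fun i => Ph t i = l).card : ℝ)) ≤
        (FF (range (2 * A + 1) ×ˢ range (2 * B' + 1))
          (fun i : ℕ × ℕ => (red c (zP a b i) : SG c)) (gg c b t γ) : ℝ) := by
      rw [← Nat.cast_sum, h3]
      exact_mod_cast h4
    exact h2.trans (h5.trans h1)
  have hN : N c a b 3 A B ≤ ∑ x ∈ Γ c ×ˢ (T ×ˢ (T ×ˢ T)), (Ls x.1 x.2).card := by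
    have h1 : N c a b 3 A B = ((bx (I A) (I B) 3).filter fun l => ∃ γ ∈ Γ c, Rel c a b γ l).card := by
      unfold N
      congr!
    rw [h1]
    refine (card_le_card ?_).trans card_biUnion_le
    intro l hl
    rw [mem_filter, mem_bx] at hl
    obtain ⟨⟨hlen, hm⟩, γ, hγ, hr⟩ := hl
    obtain ⟨⟨h3, x3⟩, ⟨h2, x2⟩, ⟨h1, x1⟩, rfl⟩ := List.length_eq_three.1 hlen
    have m3 := hm (h3, x3) (by simp)
    have m2 := hm (h2, x2) (by simp)
    have m1 := hm (h1, x1) (by simp)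
    obtain ⟨t1, ht1, b1⟩ := hT x1 m1.2
    obtain ⟨t2, ht2, b2⟩ := hT x2 m2.2
    obtain ⟨t3, ht3, b3⟩ := hT x3 m3.2
    rw [mem_biUnion]
    refine ⟨(γ, t1, t2, t3), ?_, ?_⟩
    · simp only [mem_product]
      exact ⟨hγ, ht1, ht2, ht3⟩
    · rw [hLs]
      simp only [mem_filter, mem_bx]
      exact ⟨⟨hlen, hm⟩, hr, h1, x1, h2, x2, h3, x3, rfl, b1, b2, b3⟩
  have hN' : (N c a b 3 A B : ℝ) ≤ ∑ x ∈ Γ c ×ˢ (T ×ˢ (T ×ˢ T)), ((Ls x.1 x.2).card : ℝ) := by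
    exact_mod_cast hN
  have hG : ((Γ c).card : ℝ) ≤ 2 * τ c := stSqrt c hc
  have hT0 : (0 : ℝ) ≤ T.card := Nat.cast_nonneg _
  calc (N c a b 3 A B : ℝ) * (((A : ℝ) + 1) * ((B' : ℝ) + 1)) ^ 3
      ≤ (∑ x ∈ Γ c ×ˢ (T ×ˢ (T ×ˢ T)), ((Ls x.1 x.2).card : ℝ)) *
        (((A : ℝ) + 1) * ((B' : ℝ) + 1)) ^ 3 := mul_le_mul_of_nonneg_right hN' (by positivity)
    _ = ∑ x ∈ Γ c ×ˢ (T ×ˢ (T ×ˢ T)), ((Ls x.1 x.2).card : ℝ) *
        (((A : ℝ) + 1) * ((B' : ℝ) + 1)) ^ 3 := by rw [sum_mul]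
    _ ≤ ∑ x ∈ Γ c ×ˢ (T ×ˢ (T ×ˢ T)), X := sum_le_sum fun x _ => hM x.1 x.2
    _ = ((Γ c).card : ℝ) * (T.card : ℝ) ^ 3 * X := by
        rw [sum_const, nsmul_eq_mul, card_product, card_product, card_product]
        push_cast
        ring
    _ ≤ (2 * τ c) * (2 * (B : ℝ) / B') ^ 3 * X := by
        apply mul_le_mul_of_nonneg_right _ hX0
        apply mul_le_mul hG (pow_le_pow_left₀ hT0 hTc 3) (by positivity)
        exact le_trans (Nat.cast_nonneg _) hG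
    _ = _ := by ring

end Pool.Agent.Helper71.HY
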